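import Pool.Agent.N20.EW.Stm
import Pool.Agent.Y63.NV.Brq77

/-!
# X4: Brauer's permutation lemma in characteristic `p` (project EW of helper20; helper568)
-/

set_option autoImplicit false

open scoped Classical

noncomputable section

namespace Pool.Agent.N568.EW

open Pool.Agent.Y63.NV Pool.Agent.Y63.NV.B77 Pool.Agent.Y77.NV Pool.Agent.N20.EW

/-- the classes of `p`-regular elements -/
abbrev Yc (p : ℕ) (G : Type) [Group G] : Type :=
  {C : ConjClasses G // ∀ x, ConjClasses.mk x = C → ¬ p ∣ orderOf x}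

section

variable {F : Type} [Field F] {G : Type} [Group G]

omit [Field F] in
theorem cls_eq {φ : G → F} (h : IsClassFun φ) {x y : G}
    (hxy : ConjClasses.mk x = ConjClasses.mk y) : φ x = φ y := by
  obtain ⟨c, hc⟩ := isConj_iff.1 (ConjClasses.mk_eq_mk_iff_isConj.1 hxy)
  rw [← hc, h c x]

/-- a representative of a class -/
def rep (C : ConjClasses G) : G := Quotient.out C

theorem mk_rep (C : ConjClasses G) : ConjClasses.mk (rep C) = C := Quotient.out_eq C

/-- the map of the classes of `p`-regular elements -/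
def gf (p : ℕ) (a : G ≃* G) (C : Yc p G) : Yc p G :=
  ⟨ConjClasses.map a.toMonoidHom C.1, fun x hx => by
    have h1 : ConjClasses.mk (a.symm x) = C.1 := by
      have h2 := congrArg (ConjClasses.map a.symm.toMonoidHom) hx
      have h3 : ConjClasses.map a.symm.toMonoidHom (ConjClasses.map a.toMonoidHom C.1) = C.1 := by
        rw [← mk_rep C.1]
        change ConjClasses.mk (a.symm (a (rep C.1))) = _
        rw [a.symm_apply_apply]
      exact h2.trans h3
    have h4 := C.2 _ h1
    rwa [MulEquiv.orderOf_eq] at h4⟩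

/-- as a permutation -/
def gE (p : ℕ) (a : G ≃* G) : Equiv.Perm (Yc p G) where
  toFun := gf p a
  invFun := gf p a.symm
  left_inv C := Subtype.ext (by
    change ConjClasses.map a.symm.toMonoidHom (ConjClasses.map a.toMonoidHom C.1) = C.1
    rw [← mk_rep C.1]
    change ConjClasses.mk (a.symm (a (rep C.1))) = _
    rw [a.symm_apply_apply])
  right_inv C := Subtype.ext (by
    change ConjClasses.map a.toMonoidHom (ConjClasses.map a.symm.toMonoidHom C.1) = C.1
    rw [← mk_rep C.1]
    change ConjClasses.mk (a (a.symm (rep C.1))) = _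
    rw [a.apply_symm_apply])

/-- from coefficients to functions on the classes of `p`-regular elements -/
def ev (p : ℕ) [Fintype (Irr F G)] : (Irr F G → F) →ₗ[F] (Yc p G → F) where
  toFun u := fun C => ∑ φ : Irr F G, u φ * φ.1 (rep C.1)
  map_add' u v := by
    funext C
    simp only [Pi.add_apply, add_mul, Finset.sum_add_distrib]
  map_smul' c u := by
    funext C
    simp only [Pi.smul_apply, smul_eq_mul, mul_assoc, ← Finset.mul_sum, RingHom.id_apply]

theorem ev_apply (p : ℕ) [Fintype (Irr F G)] (u : Irr F G → F) (C : Yc p G) :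
    ev p u C = ∑ φ : Irr F G, u φ * φ.1 (rep C.1) := rfl

/-- the compatibility with the permutations -/
theorem ev_act (p : ℕ) [Fintype (Irr F G)] (a : G ≃* G) (u : Irr F G → F) :
    ev p (fun φ => u (actE a φ)) = fun C => ev p u (gE p a C) := by
  funext C
  rw [ev_apply, ev_apply, ← (actE a).sum_comp (fun φ : Irr F G => u φ * φ.1 (rep (gE p a C).1))]
  refine Finset.sum_congr rfl fun φ _ => ?_
  have h1 : (actE a φ).1 (rep (gE p a C).1) = (actE a φ).1 (a (rep C.1)) := by
    refine cls_eq (irr_conj (actE a φ).2) ?_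
    rw [mk_rep]
    change ConjClasses.map a.toMonoidHom C.1 = ConjClasses.mk (a (rep C.1))
    conv_lhs => rw [← mk_rep C.1]
    rfl
  have h2 : (actE a φ).1 (a (rep C.1)) = φ.1 (rep C.1) := by
    change φ.1 (a.symm (a (rep C.1))) = _
    rw [a.symm_apply_apply]
  rw [h1, h2]

end

theorem ev_bij (h1 : S_IRR) (h2 : S_SPAN) (h3 : S_PPT) (p : ℕ) [Fact p.Prime] (F : Type) [Field F]
    [IsAlgClosed F] [CharP F p] (G : Type) [Group G] [Finite G] [Fintype (Irr F G)] :
    Function.Bijective (ev p : (Irr F G → F) →ₗ[F] (Yc p G → F)) := by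
  have hY : ∀ x : G, ∀ y, ConjClasses.mk y = ConjClasses.mk (pp p x) → ¬ p ∣ orderOf y := by
    intro x y hy
    have h4 := reg_pp (p := p) x
    obtain ⟨c, hc⟩ := isConj_iff.1 (ConjClasses.mk_eq_mk_iff_isConj.1 hy)
    have h5 : orderOf (pp p x) = orderOf y := by
      rw [← hc]
      exact orderOf_injective (MulAut.conj c).toMonoidHom (MulAut.conj c).injective y
    rwa [h5] at h4
  constructor
  · rw [injective_iff_map_eq_zero]
    intro u hu
    refine coef_unique h1 u 0 fun x => ?_
    have h4 := congrFun hu ⟨ConjClasses.mk (pp p x), hY x⟩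
    rw [ev_apply] at h4
    have h5 : ∀ φ : Irr F G, φ.1 (rep (ConjClasses.mk (pp p x))) = φ.1 x := by
      intro φ
      rw [cls_eq (irr_conj φ.2) (mk_rep (ConjClasses.mk (pp p x)))]
      exact h3 p F G φ.1 φ.2 x
    simp only [h5] at h4
    rw [h4]
    simp
  · intro v
    obtain ⟨u, hu⟩ := coef_ex p h2 (fun x => v ⟨ConjClasses.mk (pp p x), hY x⟩) (by
      intro g x
      refine congrArg v (Subtype.ext ?_)
      change ConjClasses.mk (pp p (g * x * g⁻¹)) = ConjClasses.mk (pp p x)
      rw [pp_conj]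
      exact (ConjClasses.mk_eq_mk_iff_isConj.2 (isConj_iff.2 ⟨g, rfl⟩)).symm) (by
      intro x
      refine congrArg v (Subtype.ext ?_)
      change ConjClasses.mk (pp p (pp p x)) = ConjClasses.mk (pp p x)
      rw [pp_pp])
    refine ⟨u, ?_⟩
    funext C
    rw [ev_apply, ← hu]
    refine congrArg v (Subtype.ext ?_)
    change ConjClasses.mk (pp p (rep C.1)) = C.1
    rw [pp_reg _ (C.2 _ (mk_rep C.1)), mk_rep]

/-- X4 -/
theorem X4 (h : S_PF) (h1 : S_IRR) (h2 : S_SPAN) (h3 : S_PPT) : S_X4 := by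
  intro p _ F _ _ _ G _ _ a
  have hfin : Finite (Irr F G) := irr_fin h1
  have : Fintype (Irr F G) := Fintype.ofFinite _
  have h4 := h F (Irr F G) (Yc p G) (actE a) (gE p a)
    (LinearEquiv.ofBijective (ev p) (ev_bij h1 h2 h3 p F G)) (fun u => by
      rw [LinearEquiv.ofBijective_apply]
      exact ev_act p a u) 1
  rw [pow_one, pow_one] at h4
  have h5 : Nat.card {φ : G → F // IsIrrTrace φ ∧ ∀ x, φ (a x) = φ x} =
      Nat.card {φ : Irr F G // actE a φ = φ} := by
    refine Nat.card_congr ⟨fun φ => ⟨⟨φ.1, φ.2.1⟩, ?_⟩, fun φ => ⟨φ.1.1, φ.1.2, ?_⟩,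
      fun _ => rfl, fun _ => rfl⟩
    · refine Subtype.ext (funext fun x => ?_)
      change φ.1 (a.symm x) = φ.1 x
      rw [← φ.2.2 (a.symm x)]
      exact congrArg φ.1 (a.apply_symm_apply x)
    · intro x
      have h6 := congrFun (congrArg Subtype.val φ.2) (a x)
      rw [← h6]
      change φ.1.1 (a.symm (a x)) = φ.1.1 x
      exact congrArg φ.1.1 (a.symm_apply_apply x)
  have h6 : Nat.card {C : ConjClasses G // (∀ x, ConjClasses.mk x = C → ¬ p ∣ orderOf x) ∧
      ∀ x, ConjClasses.mk x = C → ConjClasses.mk (a x) = C} =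
      Nat.card {C : Yc p G // gE p a C = C} := by
    refine Nat.card_congr ⟨fun C => ⟨⟨C.1, C.2.1⟩, ?_⟩, fun C => ⟨C.1.1, C.1.2, ?_⟩,
      fun _ => rfl, fun _ => rfl⟩
    · refine Subtype.ext ?_
      change ConjClasses.map (MulEquiv.toMonoidHom a) C.1 = C.1
      have h7 := C.2.2 (rep C.1) (mk_rep C.1)
      refine Eq.trans ?_ h7
      conv_lhs => rw [← mk_rep C.1]
      rfl
    · intro x hx
      have h7 := congrArg Subtype.val C.2
      rw [← hx] at h7 ⊢
      refine Eq.trans ?_ h7
      change _ = ConjClasses.map (MulEquiv.toMonoidHom a) C.1.1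
      rw [← hx]
      rfl
  rw [h5, h6]
  exact h4

end Pool.Agent.N568.EW
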